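import Mathlib
import Pool.Agent.Lib.MP_451b27_lc.Main

/-! It is undecidable whether the sandwich problem for `F`-free graphs is a CSP. -/

namespace Pool.Agent.Results.MP_451b27_lc.Undecidable

theorem result : ¬ ComputablePred Pool.Agent.Lib.MP_451b27_lc.IsCSP :=
  Pool.Agent.Lib.MP_451b27_lc.not_computablePred_isCSP

end Pool.Agent.Results.MP_451b27_lc.Undecidable
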